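import Pool.Agent.Helper15_SIQ.Stmts
import Pool.Agent.Helper7_SIQ.Pull

/-!
# MP_021b97_an, Q1, module EXT: extension of a current to all continuous components
-/

set_option autoImplicit false

open MeasureTheory Filter Topology

namespace Pool.Agent.SIQ.H66

open Pool.Agent.SIU Pool.Agent.SIQ

/-- the compact torus -/
abbrev TT : Type := Fin 3 → Circle

noncomputable instance instMeasurableSpaceTT : MeasurableSpace TT := borel _

instance instBorelSpaceTT : BorelSpace TT := ⟨rfl⟩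

/-- normalised Haar measure -/
noncomputable def mu : Measure TT := Measure.haarMeasure ⊤

instance instProbMu : IsProbabilityMeasure mu := ⟨by
  have := Measure.haarMeasure_self (G := TT) (K₀ := ⊤)
  simpa [mu] using this⟩

instance instInvMu : mu.IsMulLeftInvariant := by unfold mu; infer_instance

/-- coordinates of an element of the torus -/
noncomputable def cl (t : TT) : C3 := fun i => (t i : ℂ)

theorem norm_cl (t : TT) (i : Fin 3) : ‖cl t i‖ = 1 := Circle.norm_coe _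

theorem cl_ne (t : TT) (i : Fin 3) : cl t i ≠ 0 := by
  intro h
  have := norm_cl t i
  rw [h, norm_zero] at this
  exact zero_ne_one this

theorem continuous_cl : Continuous cl :=
  continuous_pi fun i =>
    (continuous_subtype_val (p := fun x => x ∈ Submonoid.unitSphere ℂ)).comp (continuous_apply i)

theorem cl_mul (s t : TT) : (fun i => cl s i * cl t i) = cl (s * t) := by
  funext i
  simp [cl]

/-- the rotation of the components -/
noncomputable def rot2 (t : TT) : C3 →L[ℝ] C3 :=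
  (rot3 fun j => cl t j ^ 2).restrictScalars ℝ

theorem rot2_apply (t : TT) (v : C3) (i : Fin 3) : rot2 t v i = cl t i ^ 2 * v i := rfl

theorem continuous_rot2 : Continuous rot2 := by
  rw [continuous_clm_apply]
  intro v
  refine continuous_pi fun i => ?_
  simp only [rot2_apply]
  exact (((continuous_apply i).comp continuous_cl).pow 2).mul continuous_const

theorem rot2_mul (s t : TT) : (rot2 s).comp (rot2 t) = rot2 (s * t) := by
  ext v i
  rw [ContinuousLinearMap.comp_apply, rot2_apply, rot2_apply, rot2_apply, ← cl_mul]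
  ring

theorem norm_rot2 (t : TT) : ‖rot2 t‖ ≤ 1 := by
  refine ContinuousLinearMap.opNorm_le_bound _ zero_le_one fun v => ?_
  rw [one_mul]
  refine (pi_norm_le_iff_of_nonneg (norm_nonneg _)).mpr fun i => ?_
  rw [rot2_apply, norm_mul, norm_pow, norm_cl, one_pow, one_mul]
  exact norm_le_pi_norm v i

/-- action of the torus on `M1` -/
noncomputable def tact (t : TT) (w : M1) : M1 :=
  ⟨X1.act (cl t) w, fun i => by rw [nn_act, norm_cl, one_pow, one_mul]; exact w.2 i⟩

theorem tact_tact (s t : TT) (w : M1) : tact s (tact t w) = tact (s * t) w := by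
  apply Subtype.ext
  show X1.act (cl s) (X1.act (cl t) w) = X1.act (cl (s * t)) w
  rw [act1_act, cl_mul]

theorem continuous_tact : Continuous (fun p : M1 × TT => tact p.2 p.1) := by
  refine Continuous.subtype_mk ?_ _
  have hc : ∀ i, Continuous fun p : M1 × TT => cl p.2 i := fun i =>
    (continuous_apply i).comp (continuous_cl.comp continuous_snd)
  have hw : ∀ m, Continuous fun p : M1 × TT => (p.1 : E6) m := fun m =>
    (continuous_apply m).comp (continuous_subtype_val.comp continuous_fst)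
  simp only [act1_eq]
  refine continuous_pi fun m => ?_
  fin_cases m
  · exact (hc 0).mul (hw 0)
  · exact (hc 0).mul (hw 1)
  · exact (hc 1).mul (hw 2)
  · exact (hc 1).mul (hw 3)
  · exact (hc 2).mul (hw 4)
  · exact (hc 2).mul (hw 5)

variable {k : ℕ}

/-- the integrand -/
noncomputable def fI (Ψ : C(M1, Alt 3 k)) (w : M1) (t : TT) : Alt 3 k :=
  (Ψ (tact t w)).compContinuousLinearMap (rot2 t)

theorem continuous_fI (Ψ : C(M1, Alt 3 k)) : Continuous (Function.uncurry (fI Ψ)) := by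
  have h1 : Continuous fun p : M1 × TT => (Ψ (tact p.2 p.1), rot2 p.2) :=
    (Ψ.continuous.comp continuous_tact).prodMk (continuous_rot2.comp continuous_snd)
  exact (H7.continuous_pull k).comp h1

theorem continuous_fI_right (Ψ : C(M1, Alt 3 k)) (w : M1) : Continuous (fI Ψ w) :=
  (continuous_fI Ψ).comp (continuous_const.prodMk continuous_id)

theorem integrable_of_cont {f : TT → Alt 3 k} (hf : Continuous f) : Integrable f mu :=
  hf.integrable_of_hasCompactSupport (HasCompactSupport.of_compactSpace _)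

theorem norm_fI (Ψ : C(M1, Alt 3 k)) (w : M1) (t : TT) : ‖fI Ψ w t‖ ≤ ‖Ψ‖ := by
  unfold fI
  refine (ContinuousAlternatingMap.norm_compContinuousLinearMap_le _ _).trans ?_
  have h1 : ‖Ψ (tact t w)‖ ≤ ‖Ψ‖ := Ψ.norm_coe_le_norm _
  have h2 : ‖rot2 t‖ ^ (Fintype.card (Fin k)) ≤ 1 := pow_le_one₀ (norm_nonneg _) (norm_rot2 t)
  calc _ ≤ ‖Ψ‖ * 1 := mul_le_mul h1 h2 (by positivity) (norm_nonneg Ψ)
    _ = ‖Ψ‖ := mul_one _

/-- the average over the torus -/
noncomputable def avg (Ψ : C(M1, Alt 3 k)) : C(M1, Alt 3 k) where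
  toFun w := ∫ t, fI Ψ w t ∂mu
  continuous_toFun := by
    have h := continuous_parametric_integral_of_continuous (μ := mu) (continuous_fI Ψ)
      (s := Set.univ) isCompact_univ
    simpa only [Measure.restrict_univ] using h

theorem avg_apply (Ψ : C(M1, Alt 3 k)) (w : M1) : avg Ψ w = ∫ t, fI Ψ w t ∂mu := rfl

theorem norm_avg (Ψ : C(M1, Alt 3 k)) (w : M1) : ‖avg Ψ w‖ ≤ ‖Ψ‖ := by
  rw [avg_apply]
  refine (norm_integral_le_of_norm_le_const (C := ‖Ψ‖)
    (Eventually.of_forall fun t => norm_fI Ψ w t)).trans ?_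
  simp

theorem avg_add (Ψ Φ : C(M1, Alt 3 k)) : avg (Ψ + Φ) = avg Ψ + avg Φ := by
  ext1 w
  show avg (Ψ + Φ) w = avg Ψ w + avg Φ w
  rw [avg_apply, avg_apply, avg_apply, ← integral_add (integrable_of_cont (continuous_fI_right _ _))
    (integrable_of_cont (continuous_fI_right _ _))]
  rfl

theorem avg_smul (c : ℝ) (Ψ : C(M1, Alt 3 k)) : avg (c • Ψ) = c • avg Ψ := by
  ext1 w
  show avg (c • Ψ) w = c • avg Ψ w
  rw [avg_apply, avg_apply, ← integral_smul]
  rfl

theorem comp_comp_rot (a : Alt 3 k) (s t : TT) :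
    (a.compContinuousLinearMap (rot2 s)).compContinuousLinearMap (rot2 t) =
      a.compContinuousLinearMap (rot2 (s * t)) := by
  rw [← rot2_mul]
  rfl

theorem avg_tact (Ψ : C(M1, Alt 3 k)) (s : TT) (w : M1) :
    avg Ψ (tact s w) = (avg Ψ w).compContinuousLinearMap (rot2 s⁻¹) := by
  have h1 : (avg Ψ w).compContinuousLinearMap (rot2 s⁻¹) =
      ∫ t, (fI Ψ w t).compContinuousLinearMap (rot2 s⁻¹) ∂mu := by
    rw [avg_apply]
    exact ((ContinuousAlternatingMap.compContinuousLinearMapCLM (𝕜 := ℝ) (ι := Fin k) (F := ℝ)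
      (rot2 s⁻¹)).integral_comp_comm (integrable_of_cont (continuous_fI_right Ψ w))).symm
  rw [h1, avg_apply, ← integral_mul_left_eq_self (μ := mu)
    (fun t => (fI Ψ w t).compContinuousLinearMap (rot2 s⁻¹)) s]
  refine integral_congr_ae (Eventually.of_forall fun t => ?_)
  show (Ψ (tact t (tact s w))).compContinuousLinearMap (rot2 t) =
    ((Ψ (tact (s * t) w)).compContinuousLinearMap (rot2 (s * t))).compContinuousLinearMap
      (rot2 s⁻¹)
  rw [comp_comp_rot, tact_tact, mul_comm t s, mul_comm (s * t) s⁻¹, inv_mul_cancel_left]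

theorem avg_inv (Ψ Φ : C(M1, Alt 3 k)) (s : TT)
    (h : ∀ w, Φ w = (Ψ (tact s w)).compContinuousLinearMap (rot2 s)) : avg Φ = avg Ψ := by
  ext1 w
  rw [avg_apply, avg_apply, ← integral_mul_left_eq_self (μ := mu) (fun t => fI Ψ w t) s]
  refine integral_congr_ae (Eventually.of_forall fun t => ?_)
  show (Φ (tact t w)).compContinuousLinearMap (rot2 t) =
    (Ψ (tact (s * t) w)).compContinuousLinearMap (rot2 (s * t))
  rw [h, comp_comp_rot, tact_tact]

/-! ### the extension to `U` -/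

/-- `nz` with values in `M1` -/
noncomputable def nzM {z : E6} (hz : z ∈ X1.U) : M1 := ⟨nz z, nz_mem hz⟩

theorem continuousOn_nz : ContinuousOn nz X1.U := by
  have hc : ∀ i, ContinuousOn (fun z : E6 => (((√(nn z i))⁻¹ : ℝ) : ℂ)) X1.U := by
    intro i
    refine Complex.continuous_ofReal.comp_continuousOn ?_
    refine ContinuousOn.inv₀ ?_ ?_
    · exact (Real.continuous_sqrt.comp (continuous_nn i)).continuousOn
    · intro z hz
      exact (Real.sqrt_pos.mpr ((mem_U1' z).mp hz i)).ne'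
  have hz : ∀ m, ContinuousOn (fun z : E6 => z m) X1.U := fun m => (continuous_apply m).continuousOn
  unfold nz
  simp only [act1_eq]
  refine continuousOn_pi.mpr fun m => ?_
  fin_cases m
  · exact (hc 0).mul (hz 0)
  · exact (hc 0).mul (hz 1)
  · exact (hc 1).mul (hz 2)
  · exact (hc 1).mul (hz 3)
  · exact (hc 2).mul (hz 4)
  · exact (hc 2).mul (hz 5)

open Classical in
/-- extension by invariance under positive scalars -/
noncomputable def exU (Φ : C(M1, Alt 3 k)) (z : E6) : Alt 3 k :=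
  if h : z ∈ X1.U then Φ (nzM h) else 0

theorem exU_apply (Φ : C(M1, Alt 3 k)) {z : E6} (h : z ∈ X1.U) : exU Φ z = Φ (nzM h) :=
  dif_pos h

theorem continuousOn_exU (Φ : C(M1, Alt 3 k)) : ContinuousOn (exU Φ) X1.U := by
  rw [continuousOn_iff_continuous_domRestrict]
  have h1 : Continuous fun z : X1.U => nzM z.2 := by
    refine Continuous.subtype_mk ?_ _
    exact continuousOn_iff_continuous_domRestrict.mp continuousOn_nz
  have h2 := Φ.continuous.comp h1
  refine h2.congr fun z => ?_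
  exact (exU_apply Φ z.2).symm

/-- unit part of a nonzero vector of scalars -/
noncomputable def ut (c : C3) (hc : ∀ j, c j ≠ 0) : TT := fun j =>
  ⟨c j / (‖c j‖ : ℂ), by
    have h : c j / (‖c j‖ : ℂ) ∈ Metric.sphere (0 : ℂ) 1 := by
      rw [mem_sphere_zero_iff_norm, norm_div, Complex.norm_real, norm_norm]
      exact div_self (norm_ne_zero_iff.mpr (hc j))
    exact h⟩

theorem cl_ut (c : C3) (hc : ∀ j, c j ≠ 0) (j : Fin 3) : cl (ut c hc) j = c j / (‖c j‖ : ℂ) := rfl

theorem nzM_act {c : C3} (hc : ∀ j, c j ≠ 0) {z : E6} (hz : z ∈ X1.U)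
    (hz' : X1.act c z ∈ X1.U) : nzM hz' = tact (ut c hc) (nzM hz) := by
  apply Subtype.ext
  show nz (X1.act c z) = X1.act (cl (ut c hc)) (nz z)
  unfold nz
  rw [act1_act, act1_act]
  congr 1
  funext i
  rw [cl_ut, nn_act, Real.sqrt_mul (sq_nonneg _), Real.sqrt_sq (norm_nonneg _), mul_inv]
  push_cast
  field_simp

theorem rot2_inv_eq {c : C3} (hc : ∀ j, c j ≠ 0) :
    rot2 (ut c hc)⁻¹ = (rot3 fun j => (starRingEnd ℂ) (c j) / c j).restrictScalars ℝ := by
  ext v i
  rw [rot2_apply]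
  show cl (ut c hc)⁻¹ i ^ 2 * v i = (starRingEnd ℂ) (c i) / c i * v i
  congr 1
  have h1 : cl (ut c hc)⁻¹ i = (cl (ut c hc) i)⁻¹ := by
    simp [cl]
  have h2 : (starRingEnd ℂ) (c i) * c i = (‖c i‖ : ℂ) ^ 2 := by
    rw [mul_comm, Complex.mul_conj, Complex.normSq_eq_norm_sq]
    push_cast
    rfl
  have h3 : (starRingEnd ℂ) (c i) = (‖c i‖ : ℂ) ^ 2 / c i := by
    rw [eq_div_iff (hc i), h2]
  rw [h1, cl_ut, h3, inv_div, div_pow]
  field_simp

theorem eqv_exU (Ψ : C(M1, Alt 3 k)) : Eqv (exU (avg Ψ)) := by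
  intro z hz c hc
  have hz' : X1.act c z ∈ X1.U := (act1_mem_U hc z).mpr hz
  rw [exU_apply _ hz', exU_apply _ hz, nzM_act hc hz hz', avg_tact, rot2_inv_eq]

/-- the form given by the average -/
noncomputable def frm (Ψ : C(M1, Alt 3 k)) : X1.Form k := toF (ofc (exU (avg Ψ)))

theorem exU_add (Φ Ψ : C(M1, Alt 3 k)) (z : E6) : exU (Φ + Ψ) z = exU Φ z + exU Ψ z := by
  unfold exU
  split
  · rfl
  · simp

theorem exU_smul (c : ℝ) (Ψ : C(M1, Alt 3 k)) (z : E6) : exU (c • Ψ) z = c • exU Ψ z := by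
  unfold exU
  split
  · rfl
  · simp

section main

variable (hcpt : CptStmt)
include hcpt

theorem ofc_cont (Ψ : C(M1, Alt 3 k)) : ContinuousOn (ofc (exU (avg Ψ))) X1.U := by
  have h := hcpt.2.2.2.1 k 0 (exU (avg Ψ))
    (contDiffOn_zero.mpr (continuousOn_exU _))
  exact h.continuousOn

theorem ofc_basic (Ψ : C(M1, Alt 3 k)) : X1.BasicOn X1.U (ofc (exU (avg Ψ))) :=
  (hcpt.2.1 k _ (eqv_exU Ψ)).1

theorem frm_apply (Ψ : C(M1, Alt 3 k)) {z : E6} (hz : z ∈ X1.U) :
    (frm Ψ).1 z = ofc (exU (avg Ψ)) z :=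
  toF_apply (ofc_cont hcpt Ψ) (ofc_basic hcpt Ψ) hz

theorem frm_add (Φ Ψ : C(M1, Alt 3 k)) : frm (Φ + Ψ) = frm Φ + frm Ψ := by
  refine form_ext fun z hz => ?_
  show (frm (Φ + Ψ)).1 z = (frm Φ).1 z + (frm Ψ).1 z
  rw [frm_apply hcpt _ hz, frm_apply hcpt _ hz, frm_apply hcpt _ hz]
  unfold ofc
  rw [if_pos hz, if_pos hz, if_pos hz, avg_add, exU_add]
  rfl

theorem frm_smul (c : ℝ) (Ψ : C(M1, Alt 3 k)) : frm (c • Ψ) = c • frm Ψ := by
  refine form_ext fun z hz => ?_
  show (frm (c • Ψ)).1 z = c • (frm Ψ).1 z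
  rw [frm_apply hcpt _ hz, frm_apply hcpt _ hz]
  unfold ofc
  rw [if_pos hz, if_pos hz, avg_smul, exU_smul]
  rfl

theorem frm_of_cmp (β : X1.Form k) (Ψ : C(M1, Alt 3 k)) (h : ∀ w : M1, Ψ w = cmp β.1 w) :
    frm Ψ = β := by
  have hb : X1.BasicOn X1.U β.1 := β.2.2.1
  have heq := (hcpt.1 k β.1 hb).1
  have h1 : ∀ w : M1, avg Ψ w = cmp β.1 w := by
    intro w
    rw [avg_apply]
    have h2 : ∀ t, fI Ψ w t = cmp β.1 w := by
      intro t
      have h3 := heq (w : E6) (M1_subset w.2) (cl t) (cl_ne t)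
      unfold fI
      rw [h]
      show (cmp β.1 (X1.act (cl t) w)).compContinuousLinearMap (rot2 t) = _
      rw [h3]
      ext v
      show cmp β.1 w (fun i => (rot3 fun j => (starRingEnd ℂ) (cl t j) / cl t j) (rot2 t (v i))) = _
      congr 1
      funext i j
      show (starRingEnd ℂ) (cl t j) / cl t j * (cl t j ^ 2 * v i j) = v i j
      have h5 : (starRingEnd ℂ) (cl t j) * cl t j = 1 := by
        rw [mul_comm, Complex.mul_conj, Complex.normSq_eq_norm_sq, norm_cl]
        norm_num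
      have h6 := cl_ne t j
      field_simp
      rw [h5, one_mul]
    simp only [h2]
    simp
  refine form_ext fun z hz => ?_
  rw [frm_apply hcpt _ hz]
  rw [(hcpt.1 k β.1 hb).2 z hz]
  unfold ofc
  rw [if_pos hz, exU_apply _ hz, h1]
  rw [hcpt.2.2.2.2.2.2 k β.1 hb z hz]
  rfl

theorem ext' (q : ℕ) (T : X1.Current q) (hT : X1.IsCont T) :
    ∃ Tt : C(M1, Alt 3 (2 * q)) →L[ℝ] ℝ,
    (∀ (β : X1.Form (2 * q)) (Ψ : C(M1, Alt 3 (2 * q))),
      (∀ w : M1, Ψ w = cmp β.1 w) → Tt Ψ = T β) ∧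
    (∀ c : C3, (∀ j, ‖c j‖ = 1) → ∀ Ψ Ψ' : C(M1, Alt 3 (2 * q)),
      (∀ w w' : M1, (w' : E6) = X1.act c w → Ψ' w =
        (Ψ w').compContinuousLinearMap ((rot3 fun j => c j ^ 2).restrictScalars ℝ)) →
      Tt Ψ' = Tt Ψ) := by
  obtain ⟨Q, C, hQ, hQU, hC⟩ := hT
  obtain ⟨C', hC'0, hC'⟩ := hcpt.2.2.2.2.2.1 Q hQ hQU (2 * q)
  let L : C(M1, Alt 3 (2 * q)) →ₗ[ℝ] ℝ :=
    { toFun := fun Ψ => T (frm Ψ)
      map_add' := fun Ψ Φ => by rw [frm_add hcpt, map_add]
      map_smul' := fun c Ψ => by rw [frm_smul hcpt, map_smul, RingHom.id_apply] }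
  have hbound : ∀ Ψ, ‖L Ψ‖ ≤ (|C| * C') * ‖Ψ‖ := by
    intro Ψ
    have h1 : ∀ z ∈ Q, ‖(frm Ψ).1 z‖ ≤ C' * ‖Ψ‖ := by
      intro z hz
      have hzU := hQU hz
      rw [frm_apply hcpt _ hzU]
      refine ((hC' _ (ofc_basic hcpt Ψ) z hz).1).trans ?_
      refine mul_le_mul_of_nonneg_left ?_ hC'0
      have h2 : nz z ∈ X1.U := M1_subset (nz_mem hzU)
      rw [(hcpt.2.1 _ _ (eqv_exU Ψ)).2 _ h2, exU_apply _ h2]
      exact norm_avg Ψ _
    have h2 := hC (frm Ψ) (C' * ‖Ψ‖) h1
    have h3 : ‖L Ψ‖ = |T (frm Ψ)| := rfl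
    rw [h3]
    refine h2.trans ?_
    rw [mul_assoc]
    exact mul_le_mul_of_nonneg_right (le_abs_self C) (mul_nonneg hC'0 (norm_nonneg Ψ))
  refine ⟨⟨L, AddMonoidHomClass.continuous_of_bound L _ hbound⟩, fun β Ψ h => ?_, fun c hc Ψ Ψ' h => ?_⟩
  · show T (frm Ψ) = T β
    rw [frm_of_cmp hcpt β Ψ h]
  · show T (frm Ψ') = T (frm Ψ)
    let s : TT := fun j => ⟨c j, mem_sphere_zero_iff_norm.mpr (hc j)⟩
    have hs : cl s = c := rfl
    have h1 : avg Ψ' = avg Ψ := by
      refine avg_inv Ψ Ψ' s fun w => ?_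
      exact h w (tact s w) rfl
    unfold frm
    rw [h1]

end main

theorem ext (_hfrm : FrmStmt) (hcpt : CptStmt) : ExtStmt :=
  fun q T hT => ext' hcpt q T hT

end Pool.Agent.SIQ.H66
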