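import Pool.Agent.Helper15_SIQ.Stmts
import Pool.Agent.Helper15_SIU.Stmts
import Pool.Agent.Helper75_SIQ.GSF

/-!
# MP_021b97_an, Q1, module STG: Stokes' theorem on `X`
-/

set_option autoImplicit false

open MeasureTheory Filter Topology

namespace Pool.Agent.SIQ.H66g

open Pool.Agent.SIU Pool.Agent.SIQ

/-! ### Stokes in `ℂ^N` -/

section stokes

variable {N k : ℕ}

theorem fderiv_eval (Θ : (Fin N → ℂ) → Alt N k) (x v : Fin N → ℂ)
    (h : DifferentiableAt ℝ Θ x) (w : Fin k → Fin N → ℂ) :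
    fderiv ℝ (fun y => Θ y w) x v = fderiv ℝ Θ x v w := by
  have h1 : HasFDerivAt (fun y => Θ y w)
      ((ContinuousAlternatingMap.apply ℝ (Fin N → ℂ) ℝ w).comp (fderiv ℝ Θ x)) x :=
    (ContinuousAlternatingMap.apply ℝ (Fin N → ℂ) ℝ w).hasFDerivAt.comp x h.hasFDerivAt
  rw [h1.fderiv]
  rfl

theorem integral_term (Θ : (Fin N → ℂ) → Alt N k) (h : ContDiff ℝ 1 Θ) (hc : HasCompactSupport Θ)
    (v : Fin N → ℂ) (w : Fin k → Fin N → ℂ) :
    Integrable (fun x => fderiv ℝ Θ x v w) ∧ ∫ x, fderiv ℝ Θ x v w = 0 := by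
  have hd : ∀ x, DifferentiableAt ℝ Θ x := fun x => (h.differentiable (by norm_num)) x
  set f : (Fin N → ℂ) → ℝ := fun y => Θ y w with hf
  have hfc : ContDiff ℝ 1 f :=
    (ContinuousAlternatingMap.apply ℝ (Fin N → ℂ) ℝ w).contDiff.comp h
  have hfs : HasCompactSupport f := by
    refine hc.mono ?_
    intro x hx
    rw [Function.mem_support] at hx ⊢
    intro h0
    exact hx (by rw [hf]; simp [h0])
  have e : ∀ x, fderiv ℝ f x v = fderiv ℝ Θ x v w := fun x => fderiv_eval Θ x v (hd x) w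
  have hcont : Continuous (fun x => fderiv ℝ f x v) :=
    (hfc.continuous_fderiv (by norm_num)).clm_apply continuous_const
  have hds : HasCompactSupport (fun x => fderiv ℝ f x v) := by
    refine (hfs.fderiv ℝ).mono ?_
    intro x hx
    rw [Function.mem_support] at hx ⊢
    intro h0
    exact hx (by rw [h0]; rfl)
  have hi : Integrable (fun x => fderiv ℝ f x v) := hcont.integrable_of_hasCompactSupport hds
  have hfi : Integrable f := hfc.continuous.integrable_of_hasCompactSupport hfs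
  have key := integral_mul_fderiv_eq_neg_fderiv_mul_of_integrable
    (μ := (volume : Measure (Fin N → ℂ)))
    (f := f) (g := fun _ => (1 : ℝ)) (v := v) (by simpa using hi) (by simp) (by simpa using hfi)
    (fun x _ => (hfc.differentiable (by norm_num)) x) (fun x _ => differentiableAt_const _)
  simp only [fderiv_fun_const, Pi.zero_apply, _root_.zero_apply, mul_zero,
    integral_zero, mul_one] at key
  constructor
  · simpa only [e] using hi
  · have : ∫ x, fderiv ℝ f x v = 0 := by linarith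
    simpa only [e] using this

theorem stokes0 (Θ : (Fin N → ℂ) → Alt N k) (h : ContDiff ℝ 1 Θ) (hc : HasCompactSupport Θ)
    (b : Fin (k + 1) → Fin N → ℂ) : ∫ x, extDeriv Θ x b = 0 := by
  have e : ∀ x, extDeriv Θ x b =
      ∑ i : Fin (k + 1), (-1 : ℝ) ^ (i : ℕ) * fderiv ℝ Θ x (b i) (i.removeNth b) := by
    intro x
    rw [extDeriv_apply ((h.differentiable (by norm_num)) x)]
    refine Finset.sum_congr rfl fun i _ => ?_
    rw [fderiv_eval Θ x _ ((h.differentiable (by norm_num)) x), zsmul_eq_mul]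
    simp
  simp only [e]
  rw [integral_finsetSum]
  · refine Finset.sum_eq_zero fun i _ => ?_
    rw [integral_const_mul, (integral_term Θ h hc _ _).2, mul_zero]
  · intro i _
    exact ((integral_term Θ h hc _ _).1).const_mul _

end stokes

/-! ### wedge with the constant `1` -/

theorem wedge_one {N k : ℕ} (a : Alt N k) (v : Fin (k + 0) → Fin N → ℂ) :
    wedge a (cst N 1) v = a (fun i => v (Fin.castAdd 0 i)) := by
  have h1 : ∀ σ : Equiv.Perm (Fin (k + 0)),
      Equiv.Perm.sign σ • (tensor a (cst N 1)) (v ∘ σ) = a (fun i => v (Fin.castAdd 0 i)) := by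
    intro σ
    have h2 : (tensor a (cst N 1)) (v ∘ σ) = a (fun i => v (σ (Fin.castAdd 0 i))) := by
      show a (fun i => v (σ (Fin.castAdd 0 i))) * 1 = _
      rw [mul_one]
    rw [h2]
    have h3 : a (fun i => v (σ (Fin.castAdd 0 i))) =
        Equiv.Perm.sign σ • a (fun i => v (Fin.castAdd 0 i)) :=
      a.toAlternatingMap.map_perm (fun i => v (Fin.castAdd 0 i)) σ
    rw [h3, smul_smul]
    rcases Int.units_eq_one_or (Equiv.Perm.sign σ) with h | h <;> rw [h] <;> simp
  unfold wedge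
  show ((k.factorial * Nat.factorial 0 : ℕ) : ℝ)⁻¹ • (tensor a (cst N 1)).alternatization v = _
  rw [ContinuousMultilinearMap.alternatization_apply_apply, Finset.sum_congr rfl fun σ _ => h1 σ,
    Finset.sum_const, Finset.card_univ, Fintype.card_perm, Fintype.card_fin, nsmul_eq_mul,
    Nat.factorial_zero, mul_one, smul_eq_mul]
  have hk : ((k.factorial : ℕ) : ℝ) ≠ 0 := by exact_mod_cast k.factorial_ne_zero
  exact inv_mul_cancel_left₀ hk _

/-- the constant function `1` -/
noncomputable def one0 : E6 → Alt 6 0 := fun _ => cst 6 1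

theorem one0_basic : X1.BasicOn X1.U one0 := by
  refine ⟨fun z _ c _ v => rfl, fun z _ v i _ => i.elim0⟩

theorem one0_cont : ContinuousOn one0 X1.U := continuousOn_const

theorem gs_one0 (g : E6) : gs g one0 = one0 := by
  funext z
  ext v
  rfl

theorem pull_one0 (x : C3) : Toric.pull X1.σ one0 x = cst 3 1 := by
  ext v
  rfl

/-- the integral of a form of top degree -/
noncomputable def II {k : ℕ} (a : E6 → Alt 6 k) : ℝ :=
  ∫ x : C3, Toric.pull X1.σ a x (stdb 3 k)

theorem wedge_pull {k : ℕ} (a : E6 → Alt 6 k) (x : C3) :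
    wedge (Toric.pull X1.σ a x) (Toric.pull X1.σ one0 x) (stdb 3 (k + 0)) =
      Toric.pull X1.σ a x (stdb 3 k) := by
  rw [pull_one0, wedge_one]
  rfl

theorem pair_one0 {k : ℕ} (a : E6 → Alt 6 k) : X1.pair a one0 = II a := by
  unfold Toric.pair II
  simp only [wedge_pull]

theorem continuousOn_extDeriv {k : ℕ} {η : E6 → Alt 6 k} (h : ContDiffOn ℝ 1 η X1.U) :
    ContinuousOn (extDeriv η) X1.U := by
  have h1 : ContinuousOn (fun z => fderiv ℝ η z) X1.U :=
    h.continuousOn_fderiv_of_isOpen isOpen_U1 le_rfl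
  exact (ContinuousAlternatingMap.alternatizeUncurryFinCLM (n := k) ℝ E6 ℝ).continuous.comp_continuousOn h1

theorem diffAt {k : ℕ} {η : E6 → Alt 6 k} (h : ContDiffOn ℝ 1 η X1.U) {z : E6} (hz : z ∈ X1.U) :
    DifferentiableAt ℝ η z :=
  ((h.differentiableOn (by norm_num)) z hz).differentiableAt (isOpen_U1.mem_nhds hz)

theorem two_le_infty : (2 : WithTop ℕ∞) ≤ ((⊤ : ℕ∞) : WithTop ℕ∞) := by
  have h : ((2 : ℕ∞) : WithTop ℕ∞) ≤ ((⊤ : ℕ∞) : WithTop ℕ∞) := WithTop.coe_le_coe.mpr le_top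
  exact h

theorem pull_extDeriv {k : ℕ} {η : E6 → Alt 6 k} (h : ContDiffOn ℝ 1 η X1.U) (x : C3) :
    Toric.pull X1.σ (extDeriv η) x = extDeriv (Toric.pull X1.σ η) x := by
  have h2 := extDeriv_pullback (𝕜 := ℝ) (ω := η) (f := X1.σ) (x := x) (r := 2)
    (diffAt h (sigma1_mem_U x))
    ((contDiff_sigma1.of_le two_le_infty).contDiffAt) (by simp)
  exact h2.symm

/-! ### the function `s` -/

/-- `|z_lo|² / |z|²` in the block `i` -/
noncomputable def sf (i : Fin 3) (z : E6) : ℝ := ‖z (lo i)‖ ^ 2 / nn z i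

theorem sf_act (i : Fin 3) {c : C3} (hc : ∀ j, c j ≠ 0) (z : E6) :
    sf i (X1.act c z) = sf i z := by
  unfold sf
  rw [nn_act, act1_lo, norm_mul, mul_pow]
  have : ‖c i‖ ^ 2 ≠ 0 := pow_ne_zero 2 (norm_ne_zero_iff.mpr (hc i))
  rw [mul_div_mul_left _ _ this]

theorem contDiffOn_sf (i : Fin 3) : ContDiffOn ℝ 1 (sf i) X1.U := by
  have hc : ∀ m : Fin 6, ContDiff ℝ 1 (fun z : E6 => ‖z m‖ ^ 2) := fun m =>
    (contDiff_norm_sq ℝ).comp (contDiff_apply ℝ ℂ m)
  unfold sf
  refine ContDiffOn.div (hc (lo i)).contDiffOn ?_ ?_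
  · unfold nn
    exact ((hc (lo i)).add (hc (hi i))).contDiffOn
  · intro z hz
    exact ((mem_U1' z).mp hz i).ne'

/-- cut-off functions -/
noncomputable def et (b : Bool) (s : ℝ) : ℝ :=
  if b then Real.smoothTransition (2 * (3 / 4 - s)) else 1 - Real.smoothTransition (2 * (3 / 4 - s))

theorem et_true_zero {s : ℝ} (h : 3 / 4 ≤ s) : et true s = 0 := by
  unfold et
  rw [if_pos rfl]
  exact Real.smoothTransition.zero_of_nonpos (by linarith)

theorem et_false_zero {s : ℝ} (h : s ≤ 1 / 4) : et false s = 0 := by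
  unfold et
  rw [if_neg (by decide), Real.smoothTransition.one_of_one_le (by linarith), sub_self]

theorem et_add (s : ℝ) : et true s + et false s = 1 := by
  unfold et
  simp

theorem contDiff_et (b : Bool) : ContDiff ℝ 1 (et b) := by
  have h : ContDiff ℝ 1 (fun s : ℝ => Real.smoothTransition (2 * (3 / 4 - s))) :=
    Real.smoothTransition.contDiff.comp (contDiff_const.mul (contDiff_const.sub contDiff_id))
  cases b
  · exact contDiff_const.sub h
  · exact h

/-- the product of a form with a cut-off function -/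
noncomputable def cf {k : ℕ} (b : Bool) (i : Fin 3) (Γ : E6 → Alt 6 k) (z : E6) : Alt 6 k :=
  et b (sf i z) • Γ z

theorem cf_smooth {k : ℕ} (b : Bool) (i : Fin 3) {Γ : E6 → Alt 6 k} (h : ContDiffOn ℝ 1 Γ X1.U) :
    ContDiffOn ℝ 1 (cf b i Γ) X1.U :=
  ((contDiff_et b).comp_contDiffOn (contDiffOn_sf i)).smul h

theorem cf_basic {k : ℕ} (b : Bool) (i : Fin 3) {Γ : E6 → Alt 6 k} (h : X1.BasicOn X1.U Γ) :
    X1.BasicOn X1.U (cf b i Γ) := by
  refine ⟨fun z hz c hc v => ?_, fun z hz v j hv => ?_⟩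
  · show et b (sf i (X1.act c z)) * Γ (X1.act c z) (fun i => X1.act c (v i)) =
      et b (sf i z) * Γ z v
    rw [sf_act i hc, h.1 z hz c hc v]
  · show et b (sf i z) * Γ z v = 0
    rw [h.2 z hz v j hv, mul_zero]

theorem cf_add {k : ℕ} (i : Fin 3) (Γ : E6 → Alt 6 k) :
    Γ = fun z => cf true i Γ z + cf false i Γ z := by
  funext z
  unfold cf
  rw [← add_smul, et_add, one_smul]

/-! ### the swap -/

/-- the quaternion `j` in the block `i`, `1` in the other blocks -/
noncomputable def gw (i : Fin 3) : E6 :=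
  ![if i = 0 then 0 else 1, if i = 0 then 1 else 0, if i = 1 then 0 else 1,
    if i = 1 then 1 else 0, if i = 2 then 0 else 1, if i = 2 then 1 else 0]

theorem gw_lo (i j : Fin 3) : gw i (lo j) = if i = j then 0 else 1 := by
  fin_cases j <;> rfl

theorem gw_hi (i j : Fin 3) : gw i (hi j) = if i = j then 1 else 0 := by
  fin_cases j <;> rfl

theorem gw_mem (i : Fin 3) : gw i ∈ X1.U := by
  rw [mem_U1]
  intro j
  rw [gw_lo, gw_hi]
  by_cases h : i = j
  · right; rw [if_pos h]; exact one_ne_zero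
  · left; rw [if_neg h]; exact one_ne_zero

theorem sf_gw_ne {i j : Fin 3} (h : i ≠ j) (z : E6) : sf j (qm (gw i) z) = sf j z := by
  unfold sf nn
  rw [qm_lo, qm_hi, gw_lo, gw_hi, if_neg h, if_neg h]
  simp

theorem sf_gw_eq (i : Fin 3) {z : E6} (hz : z ∈ X1.U) : sf i (qm (gw i) z) = 1 - sf i z := by
  have h := ((mem_U1' z).mp hz i).ne'
  have h1 : ‖qm (gw i) z (lo i)‖ ^ 2 = ‖z (hi i)‖ ^ 2 := by
    rw [qm_lo, gw_lo, gw_hi, if_pos rfl, if_pos rfl]
    simp
  have h2 : ‖qm (gw i) z (hi i)‖ ^ 2 = ‖z (lo i)‖ ^ 2 := by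
    rw [qm_hi, gw_lo, gw_hi, if_pos rfl, if_pos rfl]
    simp
  have h3 : nn (qm (gw i) z) i = nn z i := by
    unfold nn
    rw [h1, h2, add_comm]
  unfold sf
  rw [h3, h1, eq_sub_iff_add_eq, ← add_div]
  rw [show ‖z (hi i)‖ ^ 2 + ‖z (lo i)‖ ^ 2 = nn z i by unfold nn; ring]
  exact div_self h

/-! ### forms supported in the chart -/

theorem stg_chart {k : ℕ} (Γ : E6 → Alt 6 k) (h : ContDiffOn ℝ 1 Γ X1.U)
    (h0 : ∀ z ∈ X1.U, (∃ i, 3 / 4 ≤ sf i z) → Γ z = 0) : II (extDeriv Γ) = 0 := by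
  have h1 : ContDiff ℝ 1 (fun x : C3 => Γ (X1.σ x)) := by
    rw [← contDiffOn_univ]
    exact h.comp (contDiff_sigma1.of_le (by exact_mod_cast le_top)).contDiffOn
      fun x _ => sigma1_mem_U x
  have h2 : ContDiff ℝ 1 (Toric.pull X1.σ Γ) := by
    have e : Toric.pull X1.σ Γ = fun x => ContinuousAlternatingMap.compContinuousLinearMapCLM
        (inc1.restrictScalars ℝ) (Γ (X1.σ x)) := by
      funext x
      exact pull_sigma1 Γ x
    rw [e]
    exact (ContinuousLinearMap.contDiff _).comp h1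
  have h3 : HasCompactSupport (Toric.pull X1.σ Γ) := by
    refine HasCompactSupport.of_support_subset_isCompact (isCompact_closedBall (0 : C3) 2) ?_
    intro x hx
    rw [Function.mem_support] at hx
    rw [mem_closedBall_zero_iff]
    refine (pi_norm_le_iff_of_nonneg (by norm_num)).mpr fun i => ?_
    by_contra hc
    push Not at hc
    apply hx
    rw [pull_sigma1, h0 (X1.σ x) (sigma1_mem_U x) ⟨i, ?_⟩]
    · rfl
    · unfold sf
      rw [nn_sigma, sigma1_lo, le_div_iff₀ (by positivity)]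
      nlinarith
  unfold II
  simp only [pull_extDeriv h]
  exact stokes0 _ h2 h3 _

/-! ### the theorem -/

/-- induction hypothesis: forms with `s i < 3/4` for the blocks `i < n` on the support -/
def PP (k n : ℕ) : Prop := ∀ Γ : E6 → Alt 6 k, ContDiffOn ℝ 1 Γ X1.U → X1.BasicOn X1.U Γ →
  (∀ z ∈ X1.U, (∃ i : Fin 3, (i : ℕ) < n ∧ 3 / 4 ≤ sf i z) → Γ z = 0) → II (extDeriv Γ) = 0

theorem pp3 (k : ℕ) : PP k 3 := fun Γ h _ h0 =>
  stg_chart Γ h fun z hz ⟨i, hi⟩ => h0 z hz ⟨i, i.2, hi⟩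

theorem gs_smooth1 (hQ : QuaStmt) {k : ℕ} {g : E6} (hg : g ∈ X1.U) {Γ : E6 → Alt 6 k}
    (h : ContDiffOn ℝ 1 Γ X1.U) : ContDiffOn ℝ 1 (gs g Γ) X1.U := by
  rw [H75.gs_eq]
  refine H75.lp_smooth 1 _ h fun z hz => ?_
  rw [qmL_apply]
  exact (hQ.2.1 g z).mpr ⟨hg, hz⟩

section

variable (hG : GsfStmt) (hI : InvStmt) (hB : BsdStmt) (hP : PrfStmt) (hQ : QuaStmt)
include hG hI hB hP hQ

theorem pp_step {m : ℕ} (hm : m + 1 = 6) (j : Fin 3) (ih : PP m ((j : ℕ) + 1)) : PP m j := by
  intro Γ h hb h0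
  have hext : ∀ (Γ' : E6 → Alt 6 m), ContDiffOn ℝ 1 Γ' X1.U → X1.BasicOn X1.U Γ' →
      X1.BasicOn X1.U (extDeriv Γ') := fun Γ' h' hb' =>
    (hB 6 3 3 X1 X1.U isOpen_U1 (fun w hw c hc => sat_U w hw c hc)).1 m Γ'
      (h'.differentiableOn (by norm_num)) hb'
  have hint : ∀ (Γ' : E6 → Alt 6 m), ContDiffOn ℝ 1 Γ' X1.U → X1.BasicOn X1.U Γ' →
      Integrable (fun x : C3 => Toric.pull X1.σ (extDeriv Γ') x (stdb 3 (m + 1))) := by
    intro Γ' h' hb'
    have h1 := (hP (m + 1) 0 hm (extDeriv Γ') one0 (continuousOn_extDeriv h') (hext Γ' h' hb')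
      one0_cont one0_basic).1
    refine h1.congr (Eventually.of_forall fun x => ?_)
    exact wedge_pull (extDeriv Γ') x
  -- the two pieces
  have ht : II (extDeriv (cf true j Γ)) = 0 := by
    refine ih _ (cf_smooth true j h) (cf_basic true j hb) ?_
    rintro z hz ⟨i, hi, his⟩
    unfold cf
    by_cases hij : i = j
    · subst hij
      rw [et_true_zero his, zero_smul]
    · have hi' : (i : ℕ) < j := by
        have h2 : (i : ℕ) ≠ j := fun h3 => hij (Fin.ext h3)
        omega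
      rw [h0 z hz ⟨i, hi', his⟩, smul_zero]
  have hf : II (extDeriv (cf false j Γ)) = 0 := by
    have hs := cf_smooth false j h
    have hsb := cf_basic false j hb
    have h1 : II (extDeriv (gs (gw j) (cf false j Γ))) = 0 := by
      refine ih _ (gs_smooth1 hQ (gw_mem j) hs) ((hG _ (gw_mem j)).2.1 _ _ hsb) ?_
      rintro z hz ⟨i, hi, his⟩
      have hqz : qm (gw j) z ∈ X1.U := (hQ.2.1 _ _).mpr ⟨gw_mem j, hz⟩
      have h3 : cf false j Γ (qm (gw j) z) = 0 := by
        unfold cf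
        by_cases hij : i = j
        · subst hij
          rw [sf_gw_eq i hz, et_false_zero (by linarith), zero_smul]
        · have hi' : (i : ℕ) < j := by
            have h2 : (i : ℕ) ≠ j := fun h3 => hij (Fin.ext h3)
            omega
          rw [h0 _ hqz ⟨i, hi', ?_⟩, smul_zero]
          rw [sf_gw_ne (fun h4 => hij h4.symm)]
          exact his
      unfold gs
      rw [h3]
      rfl
    have h2 : ∀ x : C3, Toric.pull X1.σ (extDeriv (gs (gw j) (cf false j Γ))) x =
        Toric.pull X1.σ (gs (gw j) (extDeriv (cf false j Γ))) x := by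
      intro x
      unfold Toric.pull
      rw [(hG _ (gw_mem j)).2.2.2.1 _ _ (hs.differentiableOn (by norm_num)) _ (sigma1_mem_U x)]
    have h3 : II (extDeriv (gs (gw j) (cf false j Γ))) =
        II (gs (gw j) (extDeriv (cf false j Γ))) := by
      unfold II
      simp only [h2]
    have h4 := (hI (m + 1) 0 hm (extDeriv (cf false j Γ)) one0 (continuousOn_extDeriv hs)
      (hext _ hs hsb) one0_cont one0_basic).1 _ (gw_mem j)
    rw [gs_one0, pair_one0, pair_one0] at h4
    rw [← h4, ← h3, h1]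
  have hsum : ∀ x : C3, Toric.pull X1.σ (extDeriv Γ) x (stdb 3 (m + 1)) =
      Toric.pull X1.σ (extDeriv (cf true j Γ)) x (stdb 3 (m + 1)) +
      Toric.pull X1.σ (extDeriv (cf false j Γ)) x (stdb 3 (m + 1)) := by
    intro x
    have h1 : extDeriv Γ (X1.σ x) = extDeriv (cf true j Γ) (X1.σ x) +
        extDeriv (cf false j Γ) (X1.σ x) := by
      conv_lhs => rw [cf_add j Γ]
      exact extDeriv_fun_add (diffAt (cf_smooth true j h) (sigma1_mem_U x))
        (diffAt (cf_smooth false j h) (sigma1_mem_U x))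
    unfold Toric.pull
    rw [h1]
    rfl
  have h5 : II (extDeriv Γ) = II (extDeriv (cf true j Γ)) + II (extDeriv (cf false j Γ)) := by
    unfold II
    simp only [hsum]
    exact integral_add (hint _ (cf_smooth true j h) (cf_basic true j hb))
      (hint _ (cf_smooth false j h) (cf_basic false j hb))
  rw [h5, ht, hf, add_zero]

end

theorem stg (_hC : ChtStmt) (hG : GsfStmt) (hI : InvStmt) (hB : BsdStmt) (_hL : LbzStmt)
    (hP : PrfStmt) (hQ : QuaStmt) : StgStmt := by
  intro m hm Γ h hb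
  have p2 : PP m 2 := pp_step hG hI hB hP hQ hm 2 (pp3 m)
  have p1 : PP m 1 := pp_step hG hI hB hP hQ hm 1 p2
  have p0 : PP m 0 := pp_step hG hI hB hP hQ hm 0 p1
  refine p0 Γ h hb ?_
  rintro z _ ⟨i, hi, _⟩
  exact absurd hi (Nat.not_lt_zero _)

end Pool.Agent.SIQ.H66g
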